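import Mathlib
import Pool.Agent.V5helper51.CR6.Stm
import Pool.Agent.V5helper43.CR.MVG

/-! Large values of Dirichlet polynomials in measure form (Halasz, Montgomery, Huxley): statement `S_HMV` of
`Pool/Agent/V5helper51/CR6/Stm.lean`. -/

set_option autoImplicit false

namespace Pool.Agent.V5helper43.CR6

open Finset MeasureTheory Pool.Agent.Q236.CR Pool.Agent.V5helper51.CR6 Pool.Agent.V5helper43.CR

lemma nt_exp {n : ℕ} (hn : n ≠ 0) (τ : ℝ) :
    nt τ n = Complex.exp (-(((τ * Real.log n : ℝ)) : ℂ) * Complex.I) := by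
  unfold nt
  rw [Complex.cpow_def_of_ne_zero (by exact_mod_cast hn), ← Complex.natCast_log]
  congr 1
  push_cast
  ring

lemma nt_norm {n : ℕ} (hn : n ≠ 0) (τ : ℝ) : ‖nt τ n‖ = 1 := by
  rw [nt_exp hn, show -(((τ * Real.log n : ℝ)) : ℂ) * Complex.I = ((-(τ * Real.log n) : ℝ) : ℂ) * Complex.I by
    push_cast; ring]
  exact Complex.norm_exp_ofReal_mul_I _

lemma nt_conj {n : ℕ} (hn : n ≠ 0) (τ τ' : ℝ) :
    nt τ n * (starRingEnd ℂ) (nt τ' n) = nt (τ - τ') n := by
  rw [nt_exp hn, nt_exp hn, nt_exp hn, ← Complex.exp_conj, ← Complex.exp_add]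
  congr 1
  simp only [map_mul, map_neg, Complex.conj_ofReal, Complex.conj_I]
  push_cast
  ring

/-- the kernel -/
noncomputable def KN (N : ℕ) (t : ℝ) : ℂ := ∑ n ∈ Finset.Icc 1 N, nt t n

lemma KN_trivial (N : ℕ) (t : ℝ) : ‖KN N t‖ ≤ N := by
  unfold KN
  refine (norm_sum_le _ _).trans ?_
  calc ∑ n ∈ Finset.Icc 1 N, ‖nt t n‖ = ∑ n ∈ Finset.Icc 1 N, (1 : ℝ) := by
        apply Finset.sum_congr rfl
        intro n hn
        exact nt_norm (by have := (Finset.mem_Icc.mp hn).1; omega) t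
    _ = N := by simp
    _ ≤ N := le_rfl

lemma KN_bound (hSMB : S_SMB) : ∃ C : ℝ, 1 ≤ C ∧ ∀ (N : ℕ) (t : ℝ), 1 ≤ N → 1 ≤ |t| →
    ‖KN N t‖ ≤ C * (1 + Nat.log 2 N) * (1 + Real.log N) * (√|t| + N / |t|) := by
  obtain ⟨C, hC1, hC⟩ := hSMB
  refine ⟨C, hC1, ?_⟩
  intro N t hN ht
  have ht0 : 0 < |t| := by linarith
  have hblock : ∀ M u v : ℕ, 1 ≤ M → M ≤ u + 1 → v ≤ 2 * M →
      ‖∑ n ∈ Finset.Ioc u v, nt t n‖ ≤ C * (√|t| + M / |t|) * (1 + Real.log M) := by
    intro M u v h1 h2 h3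
    have h := (hC 1 ⟨one_ne_zero⟩ 1 M u v t h1 h2 h3 ht).1
    have h4 : ∀ n : ℕ, (1 : DirichletCharacter ℂ 1) (n : ZMod 1) = 1 := by
      intro n
      have : (n : ZMod 1) = 1 := Subsingleton.elim _ _
      rw [this, map_one]
    simp only [h4, one_mul, Nat.cast_one, one_pow, mul_one] at h
    exact h
  induction N using Nat.strong_induction_on with
  | _ N ih =>
    rcases Nat.lt_or_ge N 2 with h2 | h2
    · have hN1 : N = 1 := by omega
      subst hN1
      refine (KN_trivial 1 t).trans ?_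
      simp only [Nat.cast_one, Nat.log_one_right, Nat.cast_zero, add_zero, Real.log_one, mul_one]
      have h3 : 1 ≤ √|t| := Real.one_le_sqrt.mpr ht
      have h4 : 0 ≤ 1 / |t| := by positivity
      nlinarith
    · have h3 : N / 2 < N := by omega
      have h4 : 1 ≤ N / 2 := by omega
      have h5 := ih (N / 2) h3 h4
      have h6 : KN N t = KN (N / 2) t + ∑ n ∈ Finset.Ioc (N / 2) N, nt t n := by
        unfold KN
        have h7 : Finset.Icc 1 N = Finset.Icc 1 (N / 2) ∪ Finset.Ioc (N / 2) N := by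
          ext n
          simp only [Finset.mem_union, Finset.mem_Icc, Finset.mem_Ioc]
          omega
        rw [h7, Finset.sum_union]
        rw [Finset.disjoint_left]
        intro n hn hn'
        simp only [Finset.mem_Icc, Finset.mem_Ioc] at hn hn'
        omega
      have h7 := hblock (N / 2 + 1) (N / 2) N (by omega) le_rfl (by omega)
      have h8 : Nat.log 2 N = Nat.log 2 (N / 2) + 1 := by
        rw [Nat.log_div_base]
        have : 0 < Nat.log 2 N := Nat.log_pos (by norm_num) h2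
        omega
      have hNr : (0 : ℝ) < N := by positivity
      have h9 : ((N / 2 : ℕ) : ℝ) ≤ N := by exact_mod_cast h3.le
      have h10 : ((N / 2 + 1 : ℕ) : ℝ) ≤ N := by exact_mod_cast h3
      have h11 : Real.log ((N / 2 : ℕ) : ℝ) ≤ Real.log N := Real.log_le_log (by exact_mod_cast h4) h9
      have h12 : Real.log ((N / 2 + 1 : ℕ) : ℝ) ≤ Real.log N := Real.log_le_log (by positivity) h10
      have h13 : 0 ≤ Real.log ((N / 2 : ℕ) : ℝ) := Real.log_natCast_nonneg _
      have h14 : 0 ≤ Real.log ((N / 2 + 1 : ℕ) : ℝ) := Real.log_natCast_nonneg _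
      rw [h6]
      refine (norm_add_le _ _).trans ?_
      calc ‖KN (N / 2) t‖ + ‖∑ n ∈ Finset.Ioc (N / 2) N, nt t n‖
          ≤ C * (1 + Nat.log 2 (N / 2)) * (1 + Real.log ((N / 2 : ℕ) : ℝ)) * (√|t| + ((N / 2 : ℕ) : ℝ) / |t|) +
            C * (√|t| + ((N / 2 + 1 : ℕ) : ℝ) / |t|) * (1 + Real.log ((N / 2 + 1 : ℕ) : ℝ)) :=
            add_le_add h5 h7
        _ ≤ C * (1 + Nat.log 2 (N / 2)) * (1 + Real.log N) * (√|t| + N / |t|) +
            C * (√|t| + N / |t|) * (1 + Real.log N) := by gcongr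
        _ = _ := by
            rw [h8]
            push_cast
            ring

lemma KN_bound' (hSMB : S_SMB) : ∃ C : ℝ, 1 ≤ C ∧ ∀ (N : ℕ) (T T₁ t : ℝ), 1 ≤ N → 1 ≤ T → 1 ≤ T₁ →
    |t| ≤ T₁ → ‖KN N t‖ ≤ C * (2 + Real.log (N + T)) ^ 2 * (√T₁ + 2 * N / (1 + |t|)) := by
  obtain ⟨C, hC1, hC⟩ := KN_bound hSMB
  refine ⟨2 * C, by linarith, ?_⟩
  intro N T T₁ t hN hT hT₁ ht
  have hNr : (1 : ℝ) ≤ N := by exact_mod_cast hN
  have hlN : 0 ≤ Real.log N := Real.log_natCast_nonneg N
  have hlog : Real.log N ≤ Real.log (N + T) := Real.log_le_log (by linarith) (by linarith)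
  set l := 2 + Real.log (N + T) with hl
  have hl2 : 2 ≤ l := by linarith
  have h2 : (Nat.log 2 N : ℝ) ≤ 2 * Real.log N := by
    have h3 : (2 : ℝ) ^ (Nat.log 2 N) ≤ N := by exact_mod_cast Nat.pow_log_le_self 2 (by omega)
    have h4 := Real.log_le_log (by positivity) h3
    rw [Real.log_pow] at h4
    have h5 := Real.log_two_gt_d9
    have h6 : (0 : ℝ) ≤ Nat.log 2 N := Nat.cast_nonneg _
    nlinarith
  have h3 : 0 ≤ √T₁ := Real.sqrt_nonneg _
  have h5 : 0 ≤ 2 * (N : ℝ) / (1 + |t|) := by positivity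
  by_cases h : 1 ≤ |t|
  · refine (hC N t hN h).trans ?_
    have h4 : (√|t| + N / |t|) ≤ (√T₁ + 2 * N / (1 + |t|)) := by
      apply add_le_add
      · exact Real.sqrt_le_sqrt ht
      · rw [div_le_div_iff₀ (by linarith) (by linarith)]
        nlinarith
    have h6 : (1 + (Nat.log 2 N : ℝ)) ≤ 2 * l := by linarith
    have h7 : 1 + Real.log N ≤ l := by linarith
    have h8 : (0 : ℝ) ≤ Nat.log 2 N := Nat.cast_nonneg _
    calc C * (1 + Nat.log 2 N) * (1 + Real.log N) * (√|t| + N / |t|)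
        ≤ C * (2 * l) * l * (√T₁ + 2 * N / (1 + |t|)) := by gcongr
      _ = _ := by ring
  · push Not at h
    refine (KN_trivial N t).trans ?_
    have h4 : (N : ℝ) ≤ 2 * N / (1 + |t|) := by
      rw [le_div_iff₀ (by positivity)]
      nlinarith
    have h6 : 1 ≤ 2 * C * l ^ 2 := by nlinarith
    calc (N : ℝ) ≤ 1 * (√T₁ + 2 * N / (1 + |t|)) := by linarith
      _ ≤ 2 * C * l ^ 2 * (√T₁ + 2 * N / (1 + |t|)) := by gcongr

/-- the integral of the main part of the kernel -/
lemma int_kernel {E : Set ℝ} {T₁ τ : ℝ} (hT₁ : 0 ≤ T₁)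
    (h : ∀ τ' ∈ E, |τ - τ'| ≤ T₁) :
    ∫ τ' in E, 1 / (1 + |τ - τ'|) ≤ 2 * Real.log (1 + T₁) := by
  have hsub : E ⊆ Set.Ioc (τ - T₁ - 1) (τ + T₁) := by
    intro x hx
    have := abs_le.mp (h x hx)
    constructor <;> linarith
  have hcont : Continuous (fun τ' : ℝ => 1 / (1 + |τ - τ'|)) := by
    apply Continuous.div continuous_const (by fun_prop)
    intro x
    positivity
  have hsub2 : E ⊆ Set.Icc (τ - T₁) (τ + T₁) := by
    intro x hx
    have := abs_le.mp (h x hx)
    constructor <;> linarith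
  have h1 : ∫ τ' in E, 1 / (1 + |τ - τ'|) ≤ ∫ τ' in Set.Icc (τ - T₁) (τ + T₁), 1 / (1 + |τ - τ'|) := by
    apply setIntegral_mono_set
    · exact hcont.continuousOn.integrableOn_compact isCompact_Icc
    · exact Filter.Eventually.of_forall fun x => by positivity
    · exact hsub2.eventuallyLE
  refine h1.trans (le_of_eq ?_)
  rw [integral_Icc_eq_integral_Ioc, ← intervalIntegral.integral_of_le (by linarith)]
  have h2 : ∫ τ' in (τ - T₁)..(τ + T₁), 1 / (1 + |τ - τ'|) = ∫ x in (-T₁)..T₁, 1 / (1 + |x|) := by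
    have := intervalIntegral.integral_comp_sub_left (fun x : ℝ => 1 / (1 + |x|)) τ (a := τ - T₁) (b := τ + T₁)
    rw [this]
    congr 1 <;> ring
  rw [h2]
  have hcont2 : Continuous (fun x : ℝ => 1 / (1 + |x|)) := by
    apply Continuous.div continuous_const (by fun_prop)
    intro x
    positivity
  rw [← intervalIntegral.integral_add_adjacent_intervals (b := 0) (hcont2.intervalIntegrable _ _)
    (hcont2.intervalIntegrable _ _)]
  have h3 : ∫ x in (0 : ℝ)..T₁, 1 / (1 + |x|) = Real.log (1 + T₁) := by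
    have h4 : ∫ x in (0 : ℝ)..T₁, 1 / (1 + |x|) = ∫ x in (0 : ℝ)..T₁, 1 / (1 + x) := by
      apply intervalIntegral.integral_congr
      intro x hx
      rw [Set.uIcc_of_le hT₁] at hx
      simp only [abs_of_nonneg hx.1]
    rw [h4]
    have h5 := intervalIntegral.integral_comp_add_left (fun x : ℝ => 1 / x) 1 (a := 0) (b := T₁)
    rw [h5, integral_one_div_of_pos (by linarith) (by linarith)]
    simp
  have h4 : ∫ x in (-T₁)..(0 : ℝ), 1 / (1 + |x|) = ∫ x in (0 : ℝ)..T₁, 1 / (1 + |x|) := by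
    have := intervalIntegral.integral_comp_neg (fun x : ℝ => 1 / (1 + |x|)) (a := 0) (b := T₁)
    simp only [abs_neg, neg_zero] at this
    exact this.symm
  rw [h4, h3]
  ring

/-- duality -/
lemma dual {N : ℕ} (a : ℕ → ℂ) {E : Set ℝ} (hE : MeasurableSet E) (hfin : volume E ≠ ⊤) {V S : ℝ}
    (hV : 0 ≤ V) (hA : ∀ τ ∈ E, V ≤ ‖∑ n ∈ Finset.Icc 1 N, a n * nt τ n‖)
    (hS : ∀ τ ∈ E, ∫ τ' in E, ‖KN N (τ - τ')‖ ≤ S) (hS0 : 0 ≤ S) :
    V ^ 2 * (volume E).toReal ≤ (∑ n ∈ Finset.Icc 1 N, ‖a n‖ ^ 2) * S := by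
  classical
  set m : ℝ := (volume E).toReal with hm
  have hm0 : 0 ≤ m := ENNReal.toReal_nonneg
  set A : ℝ → ℂ := fun τ => ∑ n ∈ Finset.Icc 1 N, a n * nt τ n with hAdef
  have hne : ∀ n ∈ Finset.Icc 1 N, n ≠ 0 := by
    intro n hn
    have := (Finset.mem_Icc.mp hn).1
    omega
  have hAc : Continuous A := poly_cont (Finset.Icc 1 N) hne a
  set η : ℝ → ℂ := fun τ => (starRingEnd ℂ) (A τ) / (‖A τ‖ : ℂ) with hη
  have hηm : Measurable η := by
    apply Measurable.div
    · exact (Complex.continuous_conj.comp hAc).measurable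
    · exact (Complex.continuous_ofReal.comp hAc.norm).measurable
  have hηn : ∀ τ, ‖η τ‖ ≤ 1 := by
    intro τ
    simp only [hη, norm_div, RCLike.norm_conj, Complex.norm_real, norm_norm]
    exact div_self_le_one _
  have hηA : ∀ τ, η τ * A τ = (‖A τ‖ : ℂ) := by
    intro τ
    simp only [hη]
    by_cases h : A τ = 0
    · simp [h]
    · have h1 : (‖A τ‖ : ℂ) ≠ 0 := by
        rw [Ne, Complex.ofReal_eq_zero, norm_eq_zero]; exact h
      rw [div_mul_eq_mul_div, div_eq_iff h1, mul_comm ((starRingEnd ℂ) (A τ)), Complex.mul_conj,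
        Complex.normSq_eq_norm_sq]
      push_cast
      ring
  have : IsFiniteMeasure (volume.restrict E) := ⟨by rw [Measure.restrict_apply_univ]; exact lt_top_iff_ne_top.mpr hfin⟩
  set f : ℕ → ℝ → ℂ := fun n τ => η τ * nt τ n with hf
  have hfi : ∀ n ∈ Finset.Icc 1 N, Integrable (f n) (volume.restrict E) := by
    intro n hn
    apply Integrable.of_bound (C := 1)
    · exact (hηm.mul (nt_cont (hne n hn)).measurable).aestronglyMeasurable
    · apply Filter.Eventually.of_forall
      intro τ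
      simp only [hf, norm_mul, nt_norm (hne n hn), mul_one]
      exact hηn τ
  set b : ℕ → ℂ := fun n => ∫ τ in E, f n τ with hb
  -- first identity
  have hI : ((∫ τ in E, ‖A τ‖ : ℝ) : ℂ) = ∑ n ∈ Finset.Icc 1 N, a n * b n := by
    rw [← integral_complex_ofReal]
    have h1 : ∀ τ, (‖A τ‖ : ℂ) = ∑ n ∈ Finset.Icc 1 N, a n * f n τ := by
      intro τ
      rw [← hηA τ]
      simp only [hAdef, hf]
      rw [Finset.mul_sum]
      apply Finset.sum_congr rfl
      intro n _
      ring
    simp_rw [h1]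
    rw [integral_finsetSum _ (fun n hn => (hfi n hn).const_mul (a n))]
    apply Finset.sum_congr rfl
    intro n _
    rw [integral_const_mul]
  have hVm : V * m ≤ ∫ τ in E, ‖A τ‖ := by
    have h1 : ∫ _τ in E, V = V * m := by
      rw [setIntegral_const, smul_eq_mul, mul_comm]
      rfl
    rw [← h1]
    apply setIntegral_mono_on (integrable_const V) _ hE hA
    have h2 : ∀ τ ∈ E, ‖A τ‖ ≤ ∑ n ∈ Finset.Icc 1 N, ‖a n‖ := by
      intro τ _
      refine (norm_sum_le _ _).trans (Finset.sum_le_sum ?_)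
      intro n hn
      rw [norm_mul, nt_norm (hne n hn), mul_one]
    apply Integrable.of_bound (C := ∑ n ∈ Finset.Icc 1 N, ‖a n‖) hAc.norm.aestronglyMeasurable
    apply Filter.Eventually.of_forall
    intro τ
    rw [norm_norm]
    refine (norm_sum_le _ _).trans (Finset.sum_le_sum ?_)
    intro n hn
    rw [norm_mul, nt_norm (hne n hn), mul_one]
  have hCS : (V * m) ^ 2 ≤ (∑ n ∈ Finset.Icc 1 N, ‖a n‖ ^ 2) * ∑ n ∈ Finset.Icc 1 N, ‖b n‖ ^ 2 := by
    have h1 : V * m ≤ ∑ n ∈ Finset.Icc 1 N, ‖a n‖ * ‖b n‖ := by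
      calc V * m ≤ ∫ τ in E, ‖A τ‖ := hVm
        _ ≤ ‖((∫ τ in E, ‖A τ‖ : ℝ) : ℂ)‖ := by
            rw [Complex.norm_real]; exact le_abs_self _
        _ = ‖∑ n ∈ Finset.Icc 1 N, a n * b n‖ := by rw [hI]
        _ ≤ ∑ n ∈ Finset.Icc 1 N, ‖a n * b n‖ := norm_sum_le _ _
        _ = _ := by simp_rw [norm_mul]
    calc (V * m) ^ 2 ≤ (∑ n ∈ Finset.Icc 1 N, ‖a n‖ * ‖b n‖) ^ 2 :=
          pow_le_pow_left₀ (by positivity) h1 2
      _ ≤ _ := Finset.sum_mul_sq_le_sq_mul_sq _ _ _
  -- second identity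
  have hII : ((∑ n ∈ Finset.Icc 1 N, ‖b n‖ ^ 2 : ℝ) : ℂ) =
      ∫ τ in E, ∫ τ' in E, η τ * (starRingEnd ℂ) (η τ') * KN N (τ - τ') := by
    have h1 : ∀ τ, ∫ τ' in E, η τ * (starRingEnd ℂ) (η τ') * KN N (τ - τ') =
        ∑ n ∈ Finset.Icc 1 N, f n τ * (starRingEnd ℂ) (b n) := by
      intro τ
      have h2 : ∀ τ', η τ * (starRingEnd ℂ) (η τ') * KN N (τ - τ') =
          ∑ n ∈ Finset.Icc 1 N, f n τ * (starRingEnd ℂ) (f n τ') := by
        intro τ'
        unfold KN
        rw [Finset.mul_sum]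
        apply Finset.sum_congr rfl
        intro n hn
        rw [← nt_conj (hne n hn)]
        simp only [hf, map_mul]
        ring
      simp_rw [h2]
      rw [integral_finsetSum]
      · apply Finset.sum_congr rfl
        intro n _
        rw [integral_const_mul, integral_conj]
      · intro n hn
        apply Integrable.const_mul
        exact (LinearIsometryEquiv.integrable_comp_iff RCLike.conjLIE).mpr (hfi n hn)
    simp_rw [h1]
    rw [integral_finsetSum _ (fun n hn => (hfi n hn).mul_const _)]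
    push_cast
    apply Finset.sum_congr rfl
    intro n _
    rw [integral_mul_const]
    rw [Complex.mul_conj, Complex.normSq_eq_norm_sq]
    push_cast
    rfl
  have hKc : Continuous (KN N) := by
    unfold KN
    apply continuous_finsetSum
    intro n hn
    exact nt_cont (hne n hn)
  have hBS : ∑ n ∈ Finset.Icc 1 N, ‖b n‖ ^ 2 ≤ S * m := by
    have h1 : ‖∫ τ in E, ∫ τ' in E, η τ * (starRingEnd ℂ) (η τ') * KN N (τ - τ')‖ ≤ S * m := by
      apply norm_setIntegral_le_of_norm_le_const (lt_top_iff_ne_top.mpr hfin)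
      intro τ hτ
      refine le_trans (norm_integral_le_integral_norm _) (le_trans ?_ (hS τ hτ))
      apply integral_mono
      · have h3 : Integrable (fun τ' => ‖KN N (τ - τ')‖) (volume.restrict E) := by
          apply Integrable.of_bound (C := N)
          · exact (hKc.comp (continuous_const.sub continuous_id)).norm.aestronglyMeasurable
          · apply Filter.Eventually.of_forall
            intro x
            rw [norm_norm]
            exact KN_trivial N _
        apply Integrable.mono h3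
        · apply AEStronglyMeasurable.norm
          apply AEStronglyMeasurable.mul
          · apply AEStronglyMeasurable.mul
            · exact aestronglyMeasurable_const
            · exact (Complex.continuous_conj.measurable.comp hηm).aestronglyMeasurable
          · exact (hKc.comp (continuous_const.sub continuous_id)).aestronglyMeasurable
        · apply Filter.Eventually.of_forall
          intro x
          simp only [norm_norm, norm_mul, RCLike.norm_conj]
          have h4 := hηn τ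
          have h5 := hηn x
          have h6 := norm_nonneg (η τ)
          have h7 := norm_nonneg (η x)
          have h8 := norm_nonneg (KN N (τ - x))
          have h9 : ‖η τ‖ * ‖η x‖ ≤ 1 := by nlinarith
          nlinarith
      · apply Integrable.of_bound (C := N)
        · exact (hKc.comp (continuous_const.sub continuous_id)).norm.aestronglyMeasurable
        · apply Filter.Eventually.of_forall
          intro x
          rw [norm_norm]
          exact KN_trivial N _
      · intro x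
        simp only [norm_mul, RCLike.norm_conj]
        have h4 := hηn τ
        have h5 := hηn x
        have h6 := norm_nonneg (η τ)
        have h7 := norm_nonneg (η x)
        have h8 := norm_nonneg (KN N (τ - x))
        have h9 : ‖η τ‖ * ‖η x‖ ≤ 1 := by nlinarith
        nlinarith
    rw [← hII, Complex.norm_real] at h1
    exact (le_abs_self _).trans h1
  have hG0 : 0 ≤ ∑ n ∈ Finset.Icc 1 N, ‖a n‖ ^ 2 := by positivity
  have hfinal : m * (V ^ 2 * m) ≤ m * ((∑ n ∈ Finset.Icc 1 N, ‖a n‖ ^ 2) * S) := by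
    calc m * (V ^ 2 * m) = (V * m) ^ 2 := by ring
      _ ≤ (∑ n ∈ Finset.Icc 1 N, ‖a n‖ ^ 2) * ∑ n ∈ Finset.Icc 1 N, ‖b n‖ ^ 2 := hCS
      _ ≤ (∑ n ∈ Finset.Icc 1 N, ‖a n‖ ^ 2) * (S * m) := by gcongr
      _ = _ := by ring
  rcases hm0.eq_or_lt with h | h
  · rw [← h]
    simp only [mul_zero]
    positivity
  · exact le_of_mul_le_mul_left hfinal h

/-- one piece of length `T₁` -/
lemma piece {C : ℝ} (hC1 : 1 ≤ C) (hC : ∀ (N : ℕ) (T T₁ t : ℝ), 1 ≤ N → 1 ≤ T → 1 ≤ T₁ →
    |t| ≤ T₁ → ‖KN N t‖ ≤ C * (2 + Real.log (N + T)) ^ 2 * (√T₁ + 2 * N / (1 + |t|)))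
    {N : ℕ} (a : ℕ → ℂ) {T T₁ V : ℝ} {E : Set ℝ} (hN : 1 ≤ N) (hT : 1 ≤ T) (hT₁ : 1 ≤ T₁) (hT₁' : T₁ ≤ 2 * T)
    (hV : 0 < V) (hE : MeasurableSet E) (hfin : volume E ≠ ⊤)
    (hd : ∀ τ ∈ E, ∀ τ' ∈ E, |τ - τ'| ≤ T₁)
    (hA : ∀ τ ∈ E, V ≤ ‖∑ n ∈ Finset.Icc 1 N, a n * nt τ n‖)
    (habs : (∑ n ∈ Finset.Icc 1 N, ‖a n‖ ^ 2) * (C * (2 + Real.log (N + T)) ^ 2 * √T₁) ≤ V ^ 2 / 2) :
    (volume E).toReal ≤ 8 * C * (2 + Real.log (N + T)) ^ 3 * ((∑ n ∈ Finset.Icc 1 N, ‖a n‖ ^ 2) * N / V ^ 2) := by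
  set G := ∑ n ∈ Finset.Icc 1 N, ‖a n‖ ^ 2 with hG
  set l := 2 + Real.log (N + T) with hl
  set m := (volume E).toReal with hm
  have hm0 : 0 ≤ m := ENNReal.toReal_nonneg
  have hNr : (1 : ℝ) ≤ N := by exact_mod_cast hN
  have hlog0 : 0 ≤ Real.log (N + T) := Real.log_nonneg (by linarith)
  have hl2 : 2 ≤ l := by linarith
  have hG0 : 0 ≤ G := by positivity
  have hlogT : Real.log (1 + T₁) ≤ l := by
    have h1 : Real.log (1 + T₁) ≤ Real.log (2 * (N + T)) := Real.log_le_log (by linarith) (by linarith)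
    rw [Real.log_mul (by norm_num) (by linarith)] at h1
    have h2 := Real.log_two_lt_d9
    linarith
  have : IsFiniteMeasure (volume.restrict E) := ⟨by rw [Measure.restrict_apply_univ]; exact lt_top_iff_ne_top.mpr hfin⟩
  have hS : ∀ τ ∈ E, ∫ τ' in E, ‖KN N (τ - τ')‖ ≤ C * l ^ 2 * (√T₁ * m + 4 * N * l) := by
    intro τ hτ
    have hKc : Continuous (KN N) := by
      unfold KN
      apply continuous_finsetSum
      intro n hn
      exact nt_cont (by have := (Finset.mem_Icc.mp hn).1; omega)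
    have hcont : Continuous (fun τ' : ℝ => 1 / (1 + |τ - τ'|)) := by
      apply Continuous.div continuous_const (by fun_prop)
      intro x
      positivity
    have hint : Integrable (fun τ' : ℝ => 1 / (1 + |τ - τ'|)) (volume.restrict E) := by
      apply Integrable.of_bound (C := 1) hcont.aestronglyMeasurable
      apply Filter.Eventually.of_forall
      intro x
      rw [Real.norm_eq_abs, abs_of_nonneg (by positivity), div_le_one (by positivity)]
      linarith [abs_nonneg (τ - x)]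
    calc ∫ τ' in E, ‖KN N (τ - τ')‖
        ≤ ∫ τ' in E, (C * l ^ 2 * √T₁ + C * l ^ 2 * (2 * N) * (1 / (1 + |τ - τ'|))) := by
          apply setIntegral_mono_on _ _ hE
          · intro τ' hτ'
            refine (hC N T T₁ (τ - τ') hN hT hT₁ (hd τ hτ τ' hτ')).trans (le_of_eq ?_)
            rw [← hl]
            ring
          · apply Integrable.of_bound (C := N)
            · exact (hKc.comp (continuous_const.sub continuous_id)).norm.aestronglyMeasurable
            · apply Filter.Eventually.of_forall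
              intro x
              rw [norm_norm]
              exact KN_trivial N _
          · exact (integrable_const _).add (hint.const_mul _)
      _ = C * l ^ 2 * √T₁ * m + C * l ^ 2 * (2 * N) * ∫ τ' in E, 1 / (1 + |τ - τ'|) := by
          have hc : ∫ _τ' in E, C * l ^ 2 * √T₁ = C * l ^ 2 * √T₁ * m := by
            rw [setIntegral_const, smul_eq_mul, mul_comm]
            rfl
          have hc2 : ∫ τ' in E, C * l ^ 2 * (2 * N) * (1 / (1 + |τ - τ'|)) =
              C * l ^ 2 * (2 * N) * ∫ τ' in E, 1 / (1 + |τ - τ'|) := integral_const_mul _ _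
          rw [integral_add (integrable_const _) (hint.const_mul _), hc, hc2]
      _ ≤ C * l ^ 2 * √T₁ * m + C * l ^ 2 * (2 * N) * (2 * l) := by
          have h1 := int_kernel (E := E) (T₁ := T₁) (τ := τ) (by linarith) (hd τ hτ)
          have h2 : ∫ τ' in E, 1 / (1 + |τ - τ'|) ≤ 2 * l := by linarith
          gcongr
      _ = _ := by ring
  have h1 := dual a hE hfin hV.le hA hS (by positivity)
  rw [← hG, ← hm] at h1
  have h2 : G * (C * l ^ 2 * √T₁) * m ≤ V ^ 2 / 2 * m := mul_le_mul_of_nonneg_right habs hm0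
  have h3 : V ^ 2 / 2 * m ≤ G * (C * l ^ 2 * (4 * N * l)) := by
    have h4 : G * (C * l ^ 2 * (√T₁ * m + 4 * N * l)) = G * (C * l ^ 2 * √T₁) * m +
      G * (C * l ^ 2 * (4 * N * l)) := by ring
    rw [h4] at h1
    linarith
  have hV2 : 0 < V ^ 2 := by positivity
  have h5 : 8 * C * l ^ 3 * (G * N / V ^ 2) = 2 * (G * (C * l ^ 2 * (4 * N * l))) / V ^ 2 := by
    ring
  rw [h5, le_div_iff₀ hV2]
  linarith

theorem hmv (hSMB : S_SMB) : S_HMV := by
  obtain ⟨C, hC1, hC⟩ := KN_bound' hSMB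
  refine ⟨⌈128 * C ^ 3⌉₊ + 7, ?_⟩
  intro N a T V E hN hT hV hE hET hA
  set G := ∑ n ∈ Finset.Icc 1 N, ‖a n‖ ^ 2 with hG
  set l := 2 + Real.log (N + T) with hl
  set k := ⌈128 * C ^ 3⌉₊ + 7 with hk
  have hNr : (1 : ℝ) ≤ N := by exact_mod_cast hN
  have hlog0 : 0 ≤ Real.log (N + T) := Real.log_nonneg (by linarith)
  have hl2 : 2 ≤ l := by linarith
  have hl1 : 1 ≤ l := by linarith
  have hG0 : 0 ≤ G := by positivity
  have hk1 : 128 * C ^ 3 ≤ k := by
    rw [hk]
    push_cast
    linarith [Nat.le_ceil (128 * C ^ 3)]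
  have hk2 : 16 * C ≤ k := by
    have : C ≤ C ^ 3 := le_self_pow₀ hC1 (by norm_num)
    linarith
  have hpow3 : l ^ 3 ≤ l ^ k := pow_le_pow_right₀ hl1 (by omega)
  have hpow7 : l ^ 7 ≤ l ^ k := pow_le_pow_right₀ hl1 (by omega)
  have hpow6 : l ^ 6 ≤ l ^ k := pow_le_pow_right₀ hl1 (by omega)
  have hETtop : volume E ≠ ⊤ := by
    refine ne_top_of_le_ne_top ?_ (measure_mono hET)
    rw [Real.volume_Icc]
    exact ENNReal.ofReal_ne_top
  have hE2T : (volume E).toReal ≤ 2 * T := by
    have h1 := ENNReal.toReal_mono (by rw [Real.volume_Icc]; exact ENNReal.ofReal_ne_top) (measure_mono hET)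
    rw [Real.volume_Icc, ENNReal.toReal_ofReal (by linarith)] at h1
    linarith
  rcases hG0.eq_or_lt with hG1 | hG1
  · -- all coefficients vanish
    have h1 : E = ∅ := by
      rw [Set.eq_empty_iff_forall_notMem]
      intro τ hτ
      have h2 := hA τ hτ
      have h3 : ∑ n ∈ Finset.Icc 1 N, a n * nt τ n = 0 := by
        apply Finset.sum_eq_zero
        intro n hn
        have h4 := (Finset.sum_eq_zero_iff_of_nonneg (fun n _ => by positivity)).mp (hG ▸ hG1.symm) n hn
        have h5 : a n = 0 := by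
          rw [← norm_eq_zero]
          exact pow_eq_zero_iff (two_ne_zero) |>.mp h4
        rw [h5, zero_mul]
      rw [h3, norm_zero] at h2
      linarith
    rw [h1, measure_empty, ENNReal.toReal_zero, ← hG1]
    simp
  have hV2 : 0 < V ^ 2 := by positivity
  set R := V ^ 2 / (2 * C * l ^ 2 * G) with hR
  have hR0 : 0 < R := by positivity
  rcases lt_or_ge R 1 with hR1 | hR1
  · have h1 : 1 < 2 * C * l ^ 2 * G / V ^ 2 := by
      rw [hR, div_lt_one (by positivity)] at hR1
      rwa [lt_div_iff₀ hV2, one_mul]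
    have h2 : 1 ≤ (2 * C * l ^ 2 * G / V ^ 2) ^ 3 := one_le_pow₀ h1.le
    calc (volume E).toReal ≤ 2 * T := hE2T
      _ ≤ 2 * T * (2 * C * l ^ 2 * G / V ^ 2) ^ 3 := le_mul_of_one_le_right (by linarith) h2
      _ = (16 * C ^ 3) * l ^ 6 * (T * G ^ 3 * 1 / V ^ 6) := by
          field_simp
          ring
      _ ≤ k * l ^ k * (T * G ^ 3 * N / V ^ 6) := by
          have h3 : 16 * C ^ 3 ≤ (k : ℝ) := by nlinarith [pow_pos (show 0 < C by linarith) 3]
          gcongr
      _ ≤ k * l ^ k * (G * N / V ^ 2 + T * G ^ 3 * N / V ^ 6) := by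
          gcongr
          have : 0 ≤ G * N / V ^ 2 := by positivity
          linarith
  · set T₁ := min (R ^ 2) (2 * T) with hT₁
    have h1 : 1 ≤ T₁ := le_min (one_le_pow₀ hR1) (by linarith)
    have h2 : T₁ ≤ 2 * T := min_le_right _ _
    have h3 : √T₁ ≤ R := by
      rw [Real.sqrt_le_left hR0.le]
      exact min_le_left _ _
    have habs : G * (C * l ^ 2 * √T₁) ≤ V ^ 2 / 2 := by
      calc G * (C * l ^ 2 * √T₁) ≤ G * (C * l ^ 2 * R) := by gcongr
        _ = V ^ 2 / 2 := by
            rw [hR]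
            field_simp
    set n := ⌊2 * T / T₁⌋₊ + 1 with hn
    set P : ℕ → Set ℝ := fun j => E ∩ Set.Icc (-T + j * T₁) (-T + (j + 1) * T₁) with hP
    have hcov : E ⊆ ⋃ j ∈ Finset.range n, P j := by
      intro τ hτ
      have h4 := hET hτ
      rw [Set.mem_iUnion₂]
      refine ⟨⌊(τ + T) / T₁⌋₊, ?_, hτ, ?_⟩
      · rw [Finset.mem_range, hn, Nat.lt_add_one_iff]
        apply Nat.floor_le_floor
        have := h4.2
        gcongr
        linarith
      · have h5 : 0 ≤ (τ + T) / T₁ := div_nonneg (by linarith [h4.1]) (by linarith)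
        have h6 := Nat.floor_le h5
        have h7 := Nat.lt_floor_add_one ((τ + T) / T₁)
        rw [le_div_iff₀ (by linarith)] at h6
        rw [div_lt_iff₀ (by linarith)] at h7
        constructor <;> linarith
    have hPfin : ∀ j, volume (P j) ≠ ⊤ := fun j =>
      ne_top_of_le_ne_top hETtop (measure_mono Set.inter_subset_left)
    have hpiece : ∀ j, (volume (P j)).toReal ≤ 8 * C * l ^ 3 * (G * N / V ^ 2) := by
      intro j
      refine piece hC1 hC a hN hT h1 h2 hV (hE.inter measurableSet_Icc) (hPfin j) ?_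
        (fun τ hτ => hA τ hτ.1) habs
      intro τ hτ τ' hτ'
      rw [abs_le]
      constructor <;> linarith [hτ.2.1, hτ.2.2, hτ'.2.1, hτ'.2.2]
    have hsum : (volume E).toReal ≤ n * (8 * C * l ^ 3 * (G * N / V ^ 2)) := by
      have h4 : volume E ≤ ∑ j ∈ Finset.range n, volume (P j) :=
        (measure_mono hcov).trans (measure_biUnion_finset_le _ _)
      have h5 : ∑ j ∈ Finset.range n, volume (P j) ≠ ⊤ := by
        rw [ENNReal.sum_ne_top]
        exact fun j _ => hPfin j
      have h6 := ENNReal.toReal_mono h5 h4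
      rw [ENNReal.toReal_sum (fun j _ => hPfin j)] at h6
      refine h6.trans ((Finset.sum_le_sum fun j _ => hpiece j).trans (le_of_eq ?_))
      rw [Finset.sum_const, Finset.card_range, nsmul_eq_mul]
    have hn2 : (n : ℝ) ≤ 4 * T / R ^ 2 + 2 := by
      have h4 : (n : ℝ) ≤ 2 * T / T₁ + 1 := by
        rw [hn]
        push_cast
        have := Nat.floor_le (show 0 ≤ 2 * T / T₁ by positivity)
        linarith
      rcases min_cases (R ^ 2) (2 * T) with h5 | h5
      · rw [hT₁, h5.1] at h4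
        have h6 : 0 ≤ 2 * T / R ^ 2 := by positivity
        have h7 : 4 * T / R ^ 2 = 2 * (2 * T / R ^ 2) := by ring
        linarith
      · rw [hT₁, h5.1, div_self (by positivity)] at h4
        have h6 : 0 ≤ 4 * T / R ^ 2 := by positivity
        linarith
    calc (volume E).toReal ≤ n * (8 * C * l ^ 3 * (G * N / V ^ 2)) := hsum
      _ ≤ (4 * T / R ^ 2 + 2) * (8 * C * l ^ 3 * (G * N / V ^ 2)) := by gcongr
      _ = 16 * C * l ^ 3 * (G * N / V ^ 2) + 128 * C ^ 3 * l ^ 7 * (T * G ^ 3 * N / V ^ 6) := by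
          rw [hR]
          field_simp
          ring
      _ ≤ k * l ^ k * (G * N / V ^ 2) + k * l ^ k * (T * G ^ 3 * N / V ^ 6) := by gcongr
      _ = k * l ^ k * (G * N / V ^ 2 + T * G ^ 3 * N / V ^ 6) := by ring

end Pool.Agent.V5helper43.CR6
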