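import Mathlib
import Pool.Agent.V5helper51.CR6.Stm
import Pool.Agent.V5helper43.CR.MVG

/-! The second half of `MVG`: if all products of cells are small in mean square, so is the whole
(statement `S_MVH` of `Pool/Agent/V5helper51/CR6/Stm.lean`). -/

set_option autoImplicit false

namespace Pool.Agent.V5helper43.CR6

open Finset MeasureTheory Pool.Agent.Q236.CR Pool.Agent.V5helper51.CR6 Pool.Agent.V5helper43.CR

open Classical in
/-- the whole mean square, with explicit bounds; the inner part is bounded by hypothesis -/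
lemma whole6 {r : ℕ} {H a b T L lam B0 : ℝ} {X x1 x2 C N : ℕ} (hr : 1 ≤ r) (F : Fin r → ℕ → ℂ)
    (hH : 2 ≤ H) (hrH : (r : ℝ) / H ≤ 1) (hX : 1 ≤ X) (hx1 : X ≤ x1) (hx2 : x2 ≤ 9 * X) (hL : 1 ≤ L)
    (hlam : 0 < lam)
    (hN : Real.log x2 * H < N)
    (hF : ∀ i, ∀ n ≤ x2, ‖F i n‖ ≤ L)
    (hB00 : 0 ≤ B0)
    (hcell : ∀ M u v : Fin r → ℕ, (∀ i, 1 ≤ M i ∧ M i ≤ u i + 1 ∧ v i ≤ 2 * M i) →
      X ≤ ∏ i, M i → ∏ i, M i ≤ 18 ^ r * X →
      ∫ τ in a..b, ∏ i, ‖∑ n ∈ Finset.Ioc (u i) (v i), F i n * nt τ n‖ ^ 2 ≤ B0)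
    (hab : a ≤ b) (hba : b - a ≤ T) (hT : 0 ≤ T) (hTX : T ≤ X)
    (hlog : 1 + Real.log (18 * X) ≤ L)
    (hDV : ∀ Y : ℕ, 1 ≤ Y → ∑ n ∈ Finset.Icc 1 Y, (tr r x2 n : ℝ) ^ 4 ≤ Y * (1 + Real.log Y) ^ C) :
    ∫ τ in a..b, ‖PD F x1 x2 τ‖ ^ 2 ≤
      2 * ((N : ℝ) ^ (2 * r) * B0) +
      2 * ((X + 72 * X * L) * (L ^ (2 * r) * (lam * (27 * r * X / H + 1) + lam⁻¹ * (9 * X * L ^ C)))) := by
  have hH0 : 0 < H := by linarith
  have hXr : (1 : ℝ) ≤ X := by exact_mod_cast hX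
  set Ls := (Fintype.piFinset (fun _ : Fin r => Finset.range N)).filter (Inn H x1 x2) with hLs
  set V := ((Fintype.piFinset (fun _ : Fin r => Finset.Icc 1 x2)).filter
        (fun v => x1 < ∏ i, v i ∧ ∏ i, v i ≤ x2)).filter (fun v => ¬ Inn H x1 x2 (fun i => ix H (v i)))
    with hV
  set A : (Fin r → ℕ) → ℝ → ℂ := fun l τ =>
    ∏ i, ∑ n ∈ (Finset.Icc 1 x2).filter (fun n => ix H n = l i), F i n * nt τ n with hA
  set R : ℝ → ℂ := fun τ => ∑ v ∈ V, (∏ i, F i (v i)) * nt τ (∏ i, v i) with hR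
  have hPD : ∀ τ, PD F x1 x2 τ = ∑ l ∈ Ls, A l τ + R τ := fun τ => PD_eq F hH0 x1 x2 N hN τ
  have hAc : ∀ l, Continuous (A l) := by
    intro l
    apply continuous_finsetProd
    intro i _
    apply poly_cont
    intro n hn
    have := (Finset.mem_Icc.mp (Finset.mem_filter.mp hn).1).1
    omega
  have hRc : Continuous R := by
    apply continuous_finsetSum
    intro v hv
    apply continuous_const.mul
    apply nt_cont
    have h1 := Fintype.mem_piFinset.mp (Finset.mem_filter.mp (Finset.mem_filter.mp hv).1).1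
    have : 1 ≤ ∏ i, v i := Finset.one_le_prod' (fun i _ => (Finset.mem_Icc.mp (h1 i)).1)
    omega
  -- inner terms
  have hinner : ∀ l ∈ Ls, ∫ τ in a..b, ‖A l τ‖ ^ 2 ≤ B0 := by
    intro l hl
    have hl2 := (Finset.mem_filter.mp hl).2
    -- the good factor
    have hM1 : ∀ i, 1 ≤ ⌈Real.exp ((l i : ℝ) / H)⌉₊ := fun i => Nat.one_le_iff_ne_zero.mpr (by
      rw [Ne, Nat.ceil_eq_zero, not_le]; exact Real.exp_pos _)
    have hprodexp : ∏ i, Real.exp ((l i : ℝ) / H) = Real.exp ((∑ i, (l i : ℝ)) / H) := by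
      rw [Finset.sum_div, Real.exp_sum]
    have hlow : X ≤ ∏ i, ⌈Real.exp ((l i : ℝ) / H)⌉₊ := by
      have h1 : (X : ℝ) ≤ ((∏ i, ⌈Real.exp ((l i : ℝ) / H)⌉₊ : ℕ) : ℝ) := by
        push_cast
        have h2 : ∏ i, Real.exp ((l i : ℝ) / H) ≤ ∏ i, (⌈Real.exp ((l i : ℝ) / H)⌉₊ : ℝ) :=
          Finset.prod_le_prod (fun i _ => (Real.exp_pos _).le) (fun i _ => Nat.le_ceil _)
        rw [hprodexp] at h2
        have h3 : (X : ℝ) ≤ x1 := by exact_mod_cast hx1
        linarith [hl2.1]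
      exact_mod_cast h1
    have hup : ∏ i, ⌈Real.exp ((l i : ℝ) / H)⌉₊ ≤ 18 ^ r * X := by
      have h1 : ((∏ i, ⌈Real.exp ((l i : ℝ) / H)⌉₊ : ℕ) : ℝ) ≤ 2 ^ r * (9 * X) := by
        push_cast
        have h2 : ∏ i, (⌈Real.exp ((l i : ℝ) / H)⌉₊ : ℝ) ≤ ∏ i, (2 * Real.exp ((l i : ℝ) / H)) := by
          apply Finset.prod_le_prod (fun i _ => Nat.cast_nonneg _)
          intro i _
          have h3 : 1 ≤ Real.exp ((l i : ℝ) / H) := Real.one_le_exp (by positivity)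
          have h4 := Nat.ceil_lt_add_one (show 0 ≤ Real.exp ((l i : ℝ) / H) by linarith)
          linarith
        rw [Finset.prod_mul_distrib, hprodexp, Finset.prod_const, Finset.card_univ, Fintype.card_fin] at h2
        refine h2.trans ?_
        gcongr
        have h5 : Real.exp ((∑ i, (l i : ℝ)) / H) ≤ Real.exp ((∑ i, (l i : ℝ) + r) / H) := by
          apply Real.exp_le_exp.mpr
          gcongr
          linarith [(Nat.cast_nonneg r : (0 : ℝ) ≤ r)]
        have h6 : (x2 : ℝ) ≤ 9 * X := by exact_mod_cast hx2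
        linarith [hl2.2]
      have h2 : (2 : ℝ) ^ r * (9 * X) ≤ 18 ^ r * X := by
        have h3 : (9 : ℝ) ≤ 9 ^ r := by
          calc (9 : ℝ) = 9 ^ 1 := by norm_num
            _ ≤ 9 ^ r := pow_le_pow_right₀ (by norm_num) hr
        have h4 : (18 : ℝ) ^ r = 2 ^ r * 9 ^ r := by rw [← mul_pow]; norm_num
        rw [h4]
        have h5 : (0 : ℝ) ≤ 2 ^ r * X := by positivity
        nlinarith
      have h3 := h1.trans h2
      exact_mod_cast h3
    have hrpos : (1 : ℝ) ≤ r := by exact_mod_cast hr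
    have hexp2 : Real.exp (1 / H) ≤ 2 := by
      have h1 : 1 / H ≤ 1 / 2 := by
        apply div_le_div_of_nonneg_left <;> linarith
      have h2 : Real.exp (1 / H) ≤ Real.exp (1 / 2) := Real.exp_le_exp.mpr h1
      have h3 : Real.exp (1 / 2) ^ 2 ≤ 2 ^ 2 := by
        rw [← Real.exp_nat_mul]
        have := Real.exp_one_lt_d9
        norm_num
        linarith
      have h4 := abs_le_of_sq_le_sq h3 (by norm_num)
      exact h2.trans ((le_abs_self _).trans h4)
    have hl0 : ∀ i, Real.exp (((l i : ℝ) + 1) / H) ≤ x2 := by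
      intro i
      refine le_trans (Real.exp_le_exp.mpr ?_) hl2.2
      apply div_le_div_of_nonneg_right _ hH0.le
      have h1 : (l i : ℝ) ≤ ∑ i, (l i : ℝ) :=
        Finset.single_le_sum (f := fun i => (l i : ℝ)) (fun i _ => Nat.cast_nonneg _) (Finset.mem_univ i)
      linarith
    have hmain := hcell (fun i => ⌈Real.exp ((l i : ℝ) / H)⌉₊) (fun i => ⌈Real.exp ((l i : ℝ) / H)⌉₊ - 1)
      (fun i => ⌈Real.exp (((l i : ℝ) + 1) / H)⌉₊ - 1) (fun i => ⟨hM1 i, by omega, by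
        have h1 : Real.exp ((l i : ℝ) / H) ≤ ⌈Real.exp ((l i : ℝ) / H)⌉₊ := Nat.le_ceil _
        have h4 := Nat.ceil_lt_add_one (show 0 ≤ Real.exp (((l i : ℝ) + 1) / H) from (Real.exp_pos _).le)
        have h5 : Real.exp (((l i : ℝ) + 1) / H) ≤ 2 * Real.exp ((l i : ℝ) / H) := by
          rw [add_div, Real.exp_add]
          have := Real.exp_pos ((l i : ℝ) / H)
          nlinarith
        have h6 : 1 ≤ ⌈Real.exp (((l i : ℝ) + 1) / H)⌉₊ := Nat.one_le_iff_ne_zero.mpr (by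
          rw [Ne, Nat.ceil_eq_zero, not_le]; exact Real.exp_pos _)
        have h3 : ((⌈Real.exp (((l i : ℝ) + 1) / H)⌉₊ - 1 : ℕ) : ℝ) < 2 * ⌈Real.exp ((l i : ℝ) / H)⌉₊ := by
          rw [Nat.cast_sub h6]
          push_cast
          linarith
        exact_mod_cast h3.le⟩) hlow hup
    refine le_trans (le_of_eq ?_) hmain
    apply intervalIntegral.integral_congr
    intro τ _
    simp only [hA]
    rw [norm_prod, ← Finset.prod_pow]
    apply Finset.prod_congr rfl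
    intro i _
    rw [cell_eq hH0 (hl0 i)]
  have hcardL : (Ls.card : ℝ) ≤ (N : ℝ) ^ r := by
    have h1 : Ls.card ≤ N ^ r := by
      refine (Finset.card_filter_le _ _).trans ?_
      rw [Fintype.card_piFinset]
      simp
    exact_mod_cast h1
  have hin : ∫ τ in a..b, ‖∑ l ∈ Ls, A l τ‖ ^ 2 ≤ (N : ℝ) ^ (2 * r) * B0 := by
    calc ∫ τ in a..b, ‖∑ l ∈ Ls, A l τ‖ ^ 2 ≤ ∫ τ in a..b, (Ls.card : ℝ) * ∑ l ∈ Ls, ‖A l τ‖ ^ 2 := by
          apply intervalIntegral.integral_mono_on hab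
          · exact ((continuous_finsetSum _ fun l _ => hAc l).norm.pow 2).intervalIntegrable _ _
          · exact (continuous_const.mul (continuous_finsetSum _ fun l _ => (hAc l).norm.pow 2)).intervalIntegrable _ _
          · intro τ _
            refine (pow_le_pow_left₀ (norm_nonneg _) (norm_sum_le _ _) 2).trans ?_
            exact sq_sum_le_card_mul_sum_sq
      _ = (Ls.card : ℝ) * ∑ l ∈ Ls, ∫ τ in a..b, ‖A l τ‖ ^ 2 := by
          rw [intervalIntegral.integral_const_mul, intervalIntegral.integral_finsetSum]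
          intro l _
          exact ((hAc l).norm.pow 2).intervalIntegrable _ _
      _ ≤ (Ls.card : ℝ) * ∑ l ∈ Ls, B0 := by
          gcongr with l hl
          exact hinner l hl
      _ = (Ls.card : ℝ) * (Ls.card : ℝ) * B0 := by
          rw [Finset.sum_const, nsmul_eq_mul]; ring
      _ ≤ (N : ℝ) ^ r * (N : ℝ) ^ r * B0 := by gcongr
      _ = _ := by rw [← pow_add, two_mul]
  -- outer terms
  have hout : ∫ τ in a..b, ‖R τ‖ ^ 2 ≤ (X + 72 * X * L) *
      (L ^ (2 * r) * (lam * (27 * r * X / H + 1) + lam⁻¹ * (9 * X * L ^ C))) := by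
    have hVm : ∀ v ∈ V, v ∈ Fintype.piFinset (fun _ : Fin r => Finset.Icc 1 x2) := fun v hv =>
      (Finset.mem_filter.mp (Finset.mem_filter.mp hv).1).1
    have hOBZ : OB r H x1 x2 ⊆ Finset.Icc 1 (9 * X) := by
      intro m hm
      have := Finset.mem_Ioc.mp (Finset.mem_inter.mp hm).2
      rw [Finset.mem_Icc]
      omega
    have h1 := tuple_mean F V (OB r H x1 x2) x2 (9 * X) L (by linarith) hVm
      (fun v hv i => hF i _ (Finset.mem_Icc.mp ((Fintype.mem_piFinset.mp (hVm v hv)) i)).2)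
      (fun v hv => OB_mem hH0 (hVm v hv) (Finset.mem_filter.mp (Finset.mem_filter.mp hv).1).2.1
        (Finset.mem_filter.mp (Finset.mem_filter.mp hv).1).2.2 (Finset.mem_filter.mp hv).2)
      hOBZ a b hab
    have hlog9 : 1 + Real.log ((9 * X : ℕ) : ℝ) ≤ L := by
      refine le_trans ?_ hlog
      push_cast
      gcongr
      norm_num
    have hlog90 : 0 ≤ Real.log ((9 * X : ℕ) : ℝ) := Real.log_natCast_nonneg _
    refine h1.trans ?_
    have h2 : b - a + 8 * ((9 * X : ℕ) : ℝ) * (1 + Real.log ((9 * X : ℕ) : ℝ)) ≤ X + 72 * X * L := by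
      have h3 : 8 * ((9 * X : ℕ) : ℝ) * (1 + Real.log ((9 * X : ℕ) : ℝ)) ≤ 8 * ((9 * X : ℕ) : ℝ) * L := by
        gcongr
      have h4 : 8 * ((9 * X : ℕ) : ℝ) * L = 72 * X * L := by push_cast; ring
      linarith
    have h3 : 0 ≤ b - a + 8 * ((9 * X : ℕ) : ℝ) * (1 + Real.log ((9 * X : ℕ) : ℝ)) := by
      have : 0 ≤ 8 * ((9 * X : ℕ) : ℝ) * (1 + Real.log ((9 * X : ℕ) : ℝ)) := by positivity
      linarith
    have h4 : ∑ m ∈ OB r H x1 x2, (tr r x2 m : ℝ) ^ 2 ≤
        lam * (27 * r * X / H + 1) + lam⁻¹ * (9 * X * L ^ C) := by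
      calc ∑ m ∈ OB r H x1 x2, (tr r x2 m : ℝ) ^ 2
          ≤ ∑ m ∈ OB r H x1 x2, (lam + lam⁻¹ * (tr r x2 m : ℝ) ^ 4) := by
            apply Finset.sum_le_sum
            intro m _
            set t : ℝ := (tr r x2 m : ℝ) ^ 2 with ht
            have h5 : (tr r x2 m : ℝ) ^ 4 = t ^ 2 := by rw [ht, ← pow_mul]
            rw [h5]
            have h6 : lam * (lam + lam⁻¹ * t ^ 2 - t) = lam ^ 2 + t ^ 2 - lam * t := by
              field_simp
            have h7 : 0 ≤ lam ^ 2 + t ^ 2 - lam * t := by nlinarith [sq_nonneg (lam - t), sq_nonneg (lam + t)]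
            rw [← h6] at h7
            have h8 := nonneg_of_mul_nonneg_right h7 hlam
            linarith
        _ = lam * (OB r H x1 x2).card + lam⁻¹ * ∑ m ∈ OB r H x1 x2, (tr r x2 m : ℝ) ^ 4 := by
            rw [Finset.sum_add_distrib, Finset.sum_const, nsmul_eq_mul, Finset.mul_sum]
            ring
        _ ≤ lam * (27 * r * X / H + 1) + lam⁻¹ * (9 * X * L ^ C) := by
            gcongr
            · exact OB_card hH0 hrH hx2
            · calc ∑ m ∈ OB r H x1 x2, (tr r x2 m : ℝ) ^ 4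
                  ≤ ∑ m ∈ Finset.Icc 1 (9 * X), (tr r x2 m : ℝ) ^ 4 :=
                    Finset.sum_le_sum_of_subset_of_nonneg hOBZ (fun _ _ _ => by positivity)
                _ ≤ ((9 * X : ℕ) : ℝ) * (1 + Real.log ((9 * X : ℕ) : ℝ)) ^ C := hDV (9 * X) (by omega)
                _ ≤ 9 * X * L ^ C := by
                    push_cast at hlog9 hlog90 ⊢
                    gcongr
    gcongr
  -- conclusion
  calc ∫ τ in a..b, ‖PD F x1 x2 τ‖ ^ 2
      ≤ ∫ τ in a..b, (2 * ‖∑ l ∈ Ls, A l τ‖ ^ 2 + 2 * ‖R τ‖ ^ 2) := by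
        apply intervalIntegral.integral_mono_on hab
        · have : (fun τ => ‖PD F x1 x2 τ‖ ^ 2) = fun τ => ‖∑ l ∈ Ls, A l τ + R τ‖ ^ 2 := by
            ext τ; rw [hPD]
          rw [this]
          exact (((continuous_finsetSum _ fun l _ => hAc l).add hRc).norm.pow 2).intervalIntegrable _ _
        · exact ((continuous_const.mul ((continuous_finsetSum _ fun l _ => hAc l).norm.pow 2)).add
            (continuous_const.mul (hRc.norm.pow 2))).intervalIntegrable _ _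
        · intro τ _
          rw [hPD]
          have h1 := norm_add_le (∑ l ∈ Ls, A l τ) (R τ)
          have h2 := norm_nonneg (∑ l ∈ Ls, A l τ + R τ)
          nlinarith [sq_nonneg (‖∑ l ∈ Ls, A l τ‖ - ‖R τ‖), norm_nonneg (∑ l ∈ Ls, A l τ), norm_nonneg (R τ)]
    _ = 2 * (∫ τ in a..b, ‖∑ l ∈ Ls, A l τ‖ ^ 2) + 2 * ∫ τ in a..b, ‖R τ‖ ^ 2 := by
        rw [intervalIntegral.integral_add, intervalIntegral.integral_const_mul,
          intervalIntegral.integral_const_mul]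
        · exact (continuous_const.mul ((continuous_finsetSum _ fun l _ => hAc l).norm.pow 2)).intervalIntegrable _ _
        · exact (continuous_const.mul (hRc.norm.pow 2)).intervalIntegrable _ _
    _ ≤ _ := by
        have h1 := mul_le_mul_of_nonneg_left hin (show (0 : ℝ) ≤ 2 by norm_num)
        have h2 := mul_le_mul_of_nonneg_left hout (show (0 : ℝ) ≤ 2 by norm_num)
        exact add_le_add h1 h2


lemma par_inner6 {r U D : ℕ} {l N X : ℝ} (hl : 4 * 3 ^ (2 * r) ≤ l)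
    (hl1 : 1 ≤ l) (hN0 : 0 ≤ N) (hN : N ≤ 3 * l ^ (D + 1)) :
    2 * (N ^ (2 * r) * (X ^ 2 / l ^ ((D + 1) * (2 * r) + 1 + U))) ≤ X ^ 2 / l ^ U / 2 := by
  have hl0 : 0 < l := by linarith
  have h1 : N ^ (2 * r) ≤ (3 * l ^ (D + 1)) ^ (2 * r) := pow_le_pow_left₀ hN0 hN _
  have h2 : 2 * (N ^ (2 * r) * (X ^ 2 / l ^ ((D + 1) * (2 * r) + 1 + U))) ≤
      2 * ((3 * l ^ (D + 1)) ^ (2 * r) * (X ^ 2 / l ^ ((D + 1) * (2 * r) + 1 + U))) := by gcongr
  refine h2.trans ?_
  have h3 : 2 * ((3 * l ^ (D + 1)) ^ (2 * r) * (X ^ 2 / l ^ ((D + 1) * (2 * r) + 1 + U))) =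
      (4 * 3 ^ (2 * r)) * (X ^ 2 / l ^ U / 2) / l := by
    rw [mul_pow, ← pow_mul, pow_add l _ U, pow_add l _ 1, pow_one]
    field_simp
    ring
  rw [h3, div_le_iff₀ hl0, mul_comm]
  apply mul_le_mul_of_nonneg_left hl (by positivity)

theorem mvh (hDV : S_DV) : S_MVH := by
  intro r U hr
  obtain ⟨C, hC⟩ := hDV r
  set E := C + 2 * r + 2 + U with hE
  set D := E + (2 * r + 2 + U) with hD
  set K := (D + 1) * (2 * r) + 1 + U with hK
  set c : ℝ := 4 * 3 ^ (2 * r) + 580 * 2 ^ (2 * r) * (28 * r + 9 * 2 ^ C) + r + 4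
    with hc
  have hev1 : ∀ᶠ X : ℕ in Filter.atTop, c ≤ Real.log X :=
    (Real.tendsto_log_atTop.comp tendsto_natCast_atTop_atTop).eventually (Filter.eventually_ge_atTop c)
  have hev2 : ∀ᶠ X : ℕ in Filter.atTop, Real.log X ^ D ≤ X := by
    have h1 := (Real.isLittleO_pow_log_id_atTop (n := D)).bound (show (0 : ℝ) < 1 by norm_num)
    have h2 := tendsto_natCast_atTop_atTop.eventually h1
    filter_upwards [h2] with X hX
    simp only [id, one_mul, Real.norm_eq_abs] at hX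
    have h3 : |(X : ℝ)| = X := abs_of_nonneg (Nat.cast_nonneg _)
    rw [h3] at hX
    exact (le_abs_self _).trans hX
  obtain ⟨X₀, hX₀⟩ := Filter.eventually_atTop.mp (hev1.and (hev2.and (Filter.eventually_ge_atTop 1)))
  refine ⟨K, X₀, ?_⟩
  intro X hXX T0 T hT0 hTT hTX F hF hcell x1 x2 hx1 hx2
  obtain ⟨hlc, hHX, hX1⟩ := hX₀ X hXX
  set l := Real.log X with hl
  have hr1 : (1 : ℝ) ≤ r := by exact_mod_cast hr
  have hpa : (0 : ℝ) ≤ 4 * 3 ^ (2 * r) := by positivity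
  have hpb : (0 : ℝ) ≤ 580 * 2 ^ (2 * r) * (28 * r + 9 * 2 ^ C) := by positivity
  have hl4 : 4 ≤ l := by rw [hc] at hlc; linarith
  have hlr : (r : ℝ) ≤ l := by rw [hc] at hlc; linarith
  have hla : 4 * 3 ^ (2 * r) ≤ l := by rw [hc] at hlc; linarith
  have hlb : 580 * 2 ^ (2 * r) * (28 * r + 9 * 2 ^ C) ≤ l := by rw [hc] at hlc; linarith
  have hl1 : 1 ≤ l := by linarith
  have hl0 : 0 < l := by linarith
  have hX1r : (1 : ℝ) ≤ X := by exact_mod_cast hX1
  have hD1 : D ≠ 0 := by omega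
  have hlH : l ≤ l ^ D := le_self_pow₀ hl1 hD1
  have hlog18 : Real.log 18 ≤ 3 := by
    rw [Real.log_le_iff_le_exp (by norm_num)]
    have h1 := Real.exp_one_gt_d9
    have h2 : Real.exp 3 = Real.exp 1 ^ 3 := by rw [← Real.exp_nat_mul]; norm_num
    rw [h2]
    calc (18 : ℝ) ≤ 2.7 ^ 3 := by norm_num
      _ ≤ Real.exp 1 ^ 3 := by gcongr; linarith
  have hlog : 1 + Real.log (18 * X) ≤ 2 * l := by
    rw [Real.log_mul (by norm_num) (by linarith)]
    linarith
  have hx2r : (x2 : ℝ) ≤ 9 * X := by exact_mod_cast hx2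
  have hFb : ∀ i, ∀ n ≤ x2, ‖F i n‖ ≤ 2 * l := by
    intro i n hn
    refine (hF i n).trans ?_
    have h1 : (n : ℝ) + 3 ≤ 18 * X := by
      have : (n : ℝ) ≤ x2 := by exact_mod_cast hn
      linarith
    have h2 : Real.log ((n : ℝ) + 3) ≤ Real.log (18 * X) := Real.log_le_log (by positivity) h1
    linarith
  have hlogx2 : Real.log x2 ≤ 2 * l := by
    rcases Nat.eq_zero_or_pos x2 with h | h
    · rw [h]; simp; linarith
    · have h1 : (0 : ℝ) < x2 := by exact_mod_cast h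
      have h2 : Real.log x2 ≤ Real.log (18 * X) := Real.log_le_log h1 (by linarith)
      linarith
  have hlogx20 : 0 ≤ Real.log (x2 : ℝ) := Real.log_natCast_nonneg _
  set N : ℕ := ⌊Real.log x2 * l ^ D⌋₊ + 1 with hN
  have hN1 : Real.log x2 * l ^ D < N := by
    rw [hN]; push_cast; exact Nat.lt_floor_add_one _
  have hN2 : (N : ℝ) ≤ 3 * l ^ (D + 1) := by
    rw [hN]
    push_cast
    have h1 := Nat.floor_le (show 0 ≤ Real.log x2 * l ^ D by positivity)
    have h2 : Real.log x2 * l ^ D ≤ 2 * l * l ^ D := by gcongr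
    have h3 : 1 ≤ l ^ (D + 1) := one_le_pow₀ hl1
    rw [pow_succ] at h3 ⊢
    linarith
  have key : ∀ a b : ℝ, a ≤ b → b - a ≤ T → (∀ M u v : Fin r → ℕ,
      (∀ i, 1 ≤ M i ∧ M i ≤ u i + 1 ∧ v i ≤ 2 * M i) → X ≤ ∏ i, M i → ∏ i, M i ≤ 18 ^ r * X →
      ∫ τ in a..b, ∏ i, ‖∑ n ∈ Finset.Ioc (u i) (v i), F i n * nt τ n‖ ^ 2 ≤ (X : ℝ) ^ 2 / l ^ K) →
      ∫ τ in a..b, ‖PD F x1 x2 τ‖ ^ 2 ≤ (X : ℝ) ^ 2 / l ^ U := by
    intro a b hab hba hc'
    have h1 := whole6 (H := l ^ D) (L := 2 * l) (lam := l ^ E) (C := C) (N := N)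
      (B0 := (X : ℝ) ^ 2 / l ^ K) (T := T) hr F
      (by linarith) (by rw [div_le_one (by positivity)]; linarith) hX1 hx1 hx2 (by linarith)
      (by positivity) hN1 hFb (by positivity) hc' hab hba (hT0.trans hTT) hTX hlog (hC x2)
    have h2 := par_inner6 (r := r) (U := U) (D := D) (X := X) hla hl1 (Nat.cast_nonneg N) hN2
    have h3 := par_outer (r := r) (U := U) (C := C) hlb hl1 hr hX1r (by rw [← hE, ← hD]; exact hHX)
    rw [← hE, ← hD] at h3
    rw [← hK] at h2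
    refine h1.trans ((add_le_add h2 h3).trans (le_of_eq ?_))
    ring
  constructor
  · exact key T0 T hTT (by linarith) fun M u v h1 h2 h3 => (hcell M u v h1 h2 h3).1
  · exact key (-T) (-T0) (by linarith) (by linarith) fun M u v h1 h2 h3 => (hcell M u v h1 h2 h3).2

end Pool.Agent.V5helper43.CR6
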